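import Pool.Agent.H65.HW.GStm

/-!
# Project HW: part LFT (the left-over graph `L`)
-/

set_option autoImplicit false
open Classical Finset

namespace Pool.Agent.H66.HW

open Pool.Agent.H21.HV (nb Prp TotLab)
open Pool.Agent.H39.HW (sm Av ln blk lab Dat Sch Reg S_GRA S_SCH S_FIN)
open Pool.Agent.H65.HW

lemma nb_mono_graph {V : Type} (G H : SimpleGraph V) (h : G ≤ H) (S : Finset V) (v : V) :
    nb G S v ≤ nb H S v := by
  unfold nb
  apply Finset.card_le_card
  intro u hu
  rw [Finset.mem_filter] at hu ⊢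
  exact ⟨hu.1, h hu.2⟩

lemma nb_sdiff {V : Type} (G T : SimpleGraph V) (hT : T ≤ G) (S : Finset V) (v : V) :
    nb (G \ T) S v = nb G S v - nb T S v := by
  unfold nb
  rw [← Finset.card_sdiff_of_subset (by
    intro u hu
    rw [Finset.mem_filter] at hu ⊢
    exact ⟨hu.1, hT hu.2⟩)]
  congr 1
  ext u
  simp only [Finset.mem_filter, Finset.mem_sdiff, SimpleGraph.sdiff_adj]
  constructor
  · rintro ⟨a, b, c⟩
    exact ⟨⟨a, b⟩, fun h => c h.2⟩
  · rintro ⟨⟨a, b⟩, c⟩
    exact ⟨a, b, fun h => c ⟨a, h⟩⟩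

/-- numerical consequences of a scheme -/
lemma num_bounds {D p : ℕ} {s : Dat} (hs : Sch D p s)
    (big : (100 : ℝ) * (s.m + 2) * (s.B + 2) * (s.H + 2) ≤ s.δ * D) :
    0 < s.ω ∧ 0 < s.μ ∧ (1280 * s.δ ≤ s.ω) ∧ (800 ≤ s.δ * D) ∧ (0 : ℝ) < D ∧ s.ρ1 ≤ 1 / 16 ∧
      s.δ * D ≤ s.ω * D / 1280 := by
  have hd := hs.dpos
  have hr1 := hs.rho1
  have hr12 := hs.rho12
  have hr2 := hs.rho2
  have hop := hs.opos
  have hsm := hs.small
  have hmc : (0 : ℝ) ≤ s.m := Nat.cast_nonneg _
  have hBc : (0 : ℝ) ≤ s.B := Nat.cast_nonneg _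
  have hHc : (0 : ℝ) ≤ s.H := Nat.cast_nonneg _
  have hDc : (0 : ℝ) ≤ D := Nat.cast_nonneg _
  have hprod : (8 : ℝ) ≤ (s.m + 2) * (s.B + 2) * (s.H + 2) := by
    have h1 : (4 : ℝ) ≤ (s.m + 2) * (s.B + 2) := by nlinarith
    nlinarith
  have h8 : 10 ^ 4 * 8 * s.δ ≤ s.ρ1 * s.ω := by
    calc 10 ^ 4 * 8 * s.δ ≤ 10 ^ 4 * ((s.m + 2) * (s.B + 2) * (s.H + 2)) * s.δ := by
          nlinarith
      _ = 10 ^ 4 * (s.m + 2) * (s.B + 2) * (s.H + 2) * s.δ := by ring
      _ ≤ _ := hsm
  have hω : 0 < s.ω := by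
    by_contra hcon
    push Not at hcon
    nlinarith
  have hρ : s.ρ1 ≤ 1 / 16 := by linarith
  have hδ : 1280 * s.δ ≤ s.ω := by nlinarith
  have hbig : (800 : ℝ) ≤ s.δ * D := by
    calc (800 : ℝ) = 100 * 8 := by norm_num
      _ ≤ 100 * ((s.m + 2) * (s.B + 2) * (s.H + 2)) := by linarith
      _ = 100 * (s.m + 2) * (s.B + 2) * (s.H + 2) := by ring
      _ ≤ _ := big
  have hDpos : (0 : ℝ) < D := by
    rcases hDc.lt_or_eq with h | h
    · exact h
    · rw [← h] at hbig
      norm_num at hbig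
  refine ⟨hω, by linarith, hδ, hbig, hDpos, hρ, ?_⟩
  nlinarith

theorem t_LFT (hSEL : S_SEL) (hTRN : S_TRN) (hCNT : S_CNT) (hDEG : S_DEG) : S_LFT := by
  intro V _ G D p s cl x f T c hC hW hL hT
  have hs := hC.sch
  obtain ⟨hω, hμ, hδω, hbig, hD, hρ1, hδD⟩ := num_bounds hs hC.big
  have hop := hs.opos
  have hρ2 := hs.rho2
  have hρ2pos : 0 < s.ρ2 := lt_of_lt_of_le hs.rho1 hs.rho12
  have hδ := hs.dpos
  -- rows are below `B`
  have hRB : ∀ a ∈ s.R, a < s.B := fun a ha => by
    have := hs.hR a ha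
    omega
  -- the numbers `r z y`
  have hr : ∀ z : V, ∃ r : ℕ → ℕ, cl z ∈ s.R →
      (∀ y < s.m, r y ≤ Nz G T s cl z y ∧ (r y : ℝ) ≤ 4 * s.ρ2 * s.ω * D) ∧
      (∀ P < s.H, ∑ y ∈ (range s.m).filter (fun y => s.part y = P), r y =
        (lab s.st (s.S P (cl z))).card) ∧
      ∀ β ∈ s.cls p (cl z), ∑ y ∈ (range s.m).filter (fun y => s.φ y (cl z) = β),
        Nz G T s cl z y =
        pz G s cl z β + ∑ y ∈ (range s.m).filter (fun y => s.φ y (cl z) = β), r y := by
    intro z
    by_cases hz : cl z ∈ s.R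
    · obtain ⟨d1, d2, d3⟩ := hDEG V G D p s cl x f T c hC hW hL hT z hz
      obtain ⟨r, hr⟩ := hTRN D p s (cl z) (Nz G T s cl z) (pz G s cl z)
        { sch := hs
          big := hC.big
          aR := hz
          lo := fun y hy => (d1 y hy).1
          up := fun y hy => (d1 y hy).2
          sum := d2
          pi := fun β hβ => (d3 β hβ).2
          cnt := hCNT V G D p s cl x f T c hC hW hL hT z hz }
      exact ⟨r, fun _ => hr⟩
    · exact ⟨fun _ => 0, fun h => absurd h hz⟩
  choose r hr using hr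
  set r0 : ℕ := ⌊4 * s.ρ2 * s.ω * D⌋₊ with hr0
  set d : ℕ := ⌈s.ω * D / 2⌉₊ with hd
  set C : ℕ := ⌈(22 / 10 : ℝ) * s.μ / s.ω⌉₊ with hCdef
  have hr0nn : 0 ≤ 4 * s.ρ2 * s.ω * D := by positivity
  have hωD : 0 < s.ω * D := by positivity
  have hr0le : (r0 : ℝ) ≤ 4 * s.ρ2 * s.ω * D := Nat.floor_le hr0nn
  have hdge : s.ω * D / 2 ≤ d := Nat.le_ceil _
  have hdle : (d : ℝ) < s.ω * D / 2 + 1 := Nat.ceil_lt_add_one (by positivity)
  have hCge : (22 / 10 : ℝ) * s.μ / s.ω ≤ C := Nat.le_ceil _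
  have hCle : (C : ℝ) < (22 / 10 : ℝ) * s.μ / s.ω + 1 := Nat.ceil_lt_add_one (by positivity)
  -- the graphs `Λ a y`
  have hΛ : ∀ a y : ℕ, ∃ Λ : SimpleGraph V, a ∈ s.R → y < s.m →
      Λ ≤ G \ T ∧ (∀ u v, Λ.Adj u v → (u ∈ cell cl a ∧ v ∈ cell cl (s.B + y)) ∨
        (u ∈ cell cl (s.B + y) ∧ v ∈ cell cl a)) ∧
      (∀ z ∈ cell cl a, nb Λ (cell cl (s.B + y)) z = r z y) ∧
      ∀ u ∈ cell cl (s.B + y), nb Λ (cell cl a) u ≤ r0 * C := by
    intro a y
    by_cases hay : a ∈ s.R ∧ y < s.m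
    · obtain ⟨ha, hy⟩ := hay
      have haB := hRB a ha
      obtain ⟨Λ, h1, h2, h3, h4⟩ := hSEL V (G \ T) (cell cl a) (cell cl (s.B + y))
        (fun z => r z y) r0 d C
        (by
          rw [Finset.disjoint_left]
          intro v hv hv'
          simp only [cell, Finset.mem_filter, Finset.mem_univ, true_and] at hv hv'
          omega)
        (by
          have : (0 : ℝ) < d := lt_of_lt_of_le (by positivity) hdge
          exact_mod_cast this)
        (by
          intro z hz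
          simp only [cell, Finset.mem_filter, Finset.mem_univ, true_and] at hz
          have hzR : cl z ∈ s.R := by rw [hz]; exact ha
          exact Nat.le_floor (((hr z hzR).1 y hy).2))
        (by
          intro z hz
          simp only [cell, Finset.mem_filter, Finset.mem_univ, true_and] at hz
          have hzR : cl z ∈ s.R := by rw [hz]; exact ha
          obtain ⟨d1, -, -⟩ := hDEG V G D p s cl x f T c hC hW hL hT z hzR
          have hlo := (d1 y hy).1
          have hN : nb (G \ T) (cell cl (s.B + y)) z = Nz G T s cl z y := by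
            rw [nb_sdiff G T hT.le]
            rfl
          rw [hN]
          have hreal : ((d + r0 : ℕ) : ℝ) ≤ (Nz G T s cl z y : ℝ) := by
            push_cast
            have e1 : 4 * s.ρ2 * s.ω * D ≤ s.ω * D / 4 := by nlinarith
            have e2 : (1 - s.ρ1 / 8) * s.ω * D ≥ s.ω * D * (127 / 128) := by nlinarith
            nlinarith
          exact_mod_cast hreal)
        (by
          intro u hu
          have hrow := hC.row u a ha
          have h5 : nb (G \ T) (cell cl a) u ≤ nb G (cell cl a) u :=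
            nb_mono_graph _ _ sdiff_le _ _
          have h6 : (nb G (cell cl a) u : ℝ) ≤ s.μ * D + s.δ * D := by
            have := (abs_le.mp hrow).2
            linarith
          have h7 : ((nb (G \ T) (cell cl a) u : ℕ) : ℝ) ≤ ((C * d : ℕ) : ℝ) := by
            push_cast
            have e0 : ((nb (G \ T) (cell cl a) u : ℕ) : ℝ) ≤ (nb G (cell cl a) u : ℝ) := by
              exact_mod_cast h5
            have e3 : (22 / 10 : ℝ) * s.μ / s.ω * (s.ω * D / 2) ≤ (C : ℝ) * d := by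
              apply mul_le_mul hCge hdge (by positivity) (by positivity)
            have e4 : (22 / 10 : ℝ) * s.μ / s.ω * (s.ω * D / 2) = 11 / 10 * s.μ * D := by
              field_simp
              ring
            rw [e4] at e3
            have e5 : s.δ * D ≤ s.μ * D / 10 := by nlinarith
            linarith
          exact_mod_cast h7)
      exact ⟨Λ, fun _ _ => ⟨h1, h2, h3, h4⟩⟩
    · exact ⟨⊥, fun h1 h2 => absurd ⟨h1, h2⟩ hay⟩
  choose Λ hΛ using hΛ
  -- the union
  let L : SimpleGraph V :=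
    { Adj := fun u v => ∃ a ∈ s.R, ∃ y < s.m, (Λ a y).Adj u v
      symm := by
        refine ⟨?_⟩
        rintro u v ⟨a, ha, y, hy, h⟩
        exact ⟨a, ha, y, hy, h.symm⟩
      loopless := by
        refine ⟨?_⟩
        rintro u ⟨a, ha, y, hy, h⟩
        exact h.ne rfl }
  have hLadj : ∀ u v, L.Adj u v ↔ ∃ a ∈ s.R, ∃ y < s.m, (Λ a y).Adj u v := fun u v => Iff.rfl
  -- description of the edges of `L`
  have hkey : ∀ z v, cl z ∈ s.R → ∀ y < s.m, cl v = s.B + y →
      (L.Adj z v ↔ (Λ (cl z) y).Adj z v) := by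
    intro z v hz y hy hv
    constructor
    · rintro ⟨a, ha, y', hy', h⟩
      have haB := hRB a ha
      have hzB := hRB _ hz
      rcases (hΛ a y' ha hy').2.1 z v h with ⟨h1, h2⟩ | ⟨h1, h2⟩
      · simp only [cell, Finset.mem_filter, Finset.mem_univ, true_and] at h1 h2
        have : y = y' := by omega
        rw [this, h1]
        exact h
      · simp only [cell, Finset.mem_filter, Finset.mem_univ, true_and] at h1 h2
        omega
    · intro h
      exact ⟨cl z, hz, y, hy, h⟩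
  have hnbL : ∀ z, cl z ∈ s.R → ∀ y < s.m, nb L (cell cl (s.B + y)) z = r z y := by
    intro z hz y hy
    have h1 := (hΛ (cl z) y hz hy).2.2.1 z (by simp [cell])
    rw [← h1]
    unfold nb
    congr 1
    ext v
    simp only [cell, Finset.mem_filter, Finset.mem_univ, true_and]
    constructor
    · rintro ⟨hv, h⟩
      exact ⟨hv, (hkey z v hz y hy hv).mp h⟩
    · rintro ⟨hv, h⟩
      exact ⟨hv, (hkey z v hz y hy hv).mpr h⟩
  refine ⟨L, ?_, ?_, ?_, ?_, ?_, ?_⟩
  · intro u v h
    obtain ⟨a, ha, y, hy, h⟩ := h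
    have := (hΛ a y ha hy).1 h
    rw [SimpleGraph.sdiff_adj] at this
    exact this.1
  · intro u v h
    obtain ⟨a, ha, y, hy, h⟩ := h
    have := (hΛ a y ha hy).1 h
    rw [SimpleGraph.sdiff_adj] at this
    exact this.2
  · intro u v h
    obtain ⟨a, ha, y, hy, h⟩ := h
    rcases (hΛ a y ha hy).2.1 u v h with ⟨h1, h2⟩ | ⟨h1, h2⟩
    · simp only [cell, Finset.mem_filter, Finset.mem_univ, true_and] at h1 h2
      left
      exact ⟨by rw [h1]; exact ha, by omega⟩
    · simp only [cell, Finset.mem_filter, Finset.mem_univ, true_and] at h1 h2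
      right
      exact ⟨by omega, by rw [h2]; exact ha⟩
  · intro z hz P hP
    rw [← (hr z hz).2.1 P hP]
    apply Finset.sum_congr rfl
    intro y hy
    rw [Finset.mem_filter, Finset.mem_range] at hy
    exact hnbL z hz y hy.1
  · intro z hz β hβ
    rw [(hr z hz).2.2 β hβ]
    congr 1
    apply Finset.sum_congr rfl
    intro y hy
    rw [Finset.mem_filter, Finset.mem_range] at hy
    exact (hnbL z hz y hy.1).symm
  · intro u hu a ha
    have huv : cl u < s.B + s.m := by
      rcases hC.val u with h | h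
      · have := hRB _ h
        omega
      · exact h.2
    obtain ⟨y, hy⟩ : ∃ y, cl u = s.B + y := ⟨cl u - s.B, by omega⟩
    have hym : y < s.m := by omega
    have h1 : nb L (cell cl a) u = nb (Λ a y) (cell cl a) u := by
      unfold nb
      congr 1
      ext v
      simp only [cell, Finset.mem_filter, Finset.mem_univ, true_and]
      constructor
      · rintro ⟨hv, h⟩
        have h2 := hkey v u (by rw [hv]; exact ha) y hym hy
        rw [hv] at h2
        exact ⟨hv, (h2.mp h.symm).symm⟩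
      · rintro ⟨hv, h⟩
        have h2 := hkey v u (by rw [hv]; exact ha) y hym hy
        rw [hv] at h2
        exact ⟨hv, (h2.mpr h.symm).symm⟩
    have h2 := (hΛ a y ha hym).2.2.2 u (by
      simp only [cell, Finset.mem_filter, Finset.mem_univ, true_and]
      exact hy)
    rw [h1]
    have h3 : ((nb (Λ a y) (cell cl a) u : ℕ) : ℝ) ≤ (r0 : ℝ) * C := by exact_mod_cast h2
    have h4 : (r0 : ℝ) * C ≤ 4 * s.ρ2 * s.ω * D * ((22 / 10 : ℝ) * s.μ / s.ω + 1) := by
      apply mul_le_mul hr0le hCle.le (by positivity) hr0nn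
    have h5 : 4 * s.ρ2 * s.ω * D * ((22 / 10 : ℝ) * s.μ / s.ω + 1) =
        88 / 10 * s.ρ2 * s.μ * D + 4 * s.ρ2 * s.ω * D := by
      field_simp
      ring
    have h6 : 4 * s.ρ2 * s.ω * D ≤ 4 * s.ρ2 * s.μ * D := by
      apply mul_le_mul_of_nonneg_right _ hD.le
      apply mul_le_mul_of_nonneg_left hop (by positivity)
    have h7 : 0 ≤ s.ρ2 * s.μ * D := by positivity
    nlinarith

end Pool.Agent.H66.HW
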